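import Pool.Agent.Q134.PR.Groth

set_option autoImplicit false

/-!
A gap around `SL(n,ℤ)`: a finitely generated group with more, or with fewer, finite quotients than
`SL(n,ℤ)` has a very different number of subgroups of finite index.
-/

namespace Pool.Agent.Results.MP_a2a22c_al.FiniteQuotientGap

open Function Pool.Agent.Q98.DF Pool.Agent.Q134.PR

/-- For all large `x` the numbers of the subgroups of index `≤ x` in `Λ` and in `Γ` differ by at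
most the number of the subgroups of index `≤ x ^ c` in `Γ`. -/
def Near (Λ Γ : Type) [Group Λ] [Group Γ] (c : ℝ) : Prop :=
  ∃ X : ℕ, ∀ x ≥ X, num Λ x ≤ num Γ x + num Γ ⌊(x : ℝ) ^ c⌋₊ ∧
    num Γ x ≤ num Λ x + num Γ ⌊(x : ℝ) ^ c⌋₊

theorem result :
    (∀ (Γ Λ : Type) [Group Γ] [Group Λ], Group.FG Γ → Group.FG Λ → FQle Γ Λ →
      ∀ (Q : Type) [Group Q] [Finite Q], (∃ f : Λ →* Q, Surjective f) →
        (¬ ∃ f : Γ →* Q, Surjective f) → ∀ x : ℕ,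
        num Γ x + num Γ (Nat.card Q * x) * (Nat.card Q * x) ^ Nat.log 2 (Nat.card Q) ≤
          num Λ (Nat.card Q * x) * (Nat.card Q * x) ^ Nat.log 2 (Nat.card Q)) ∧
    ∀ n : ℕ, 2 ≤ n → ∀ c : ℝ, 0 < c → c < 1 →
      (∀ C e : ℕ, ∃ x : ℕ, C * x ^ e < num (SLZ n) ⌊(x : ℝ) ^ c⌋₊) ∧
      (∀ (Λ : Type) [Group Λ], Group.FG Λ → (FQle (SLZ n) Λ ∨ FQle Λ (SLZ n)) →
        (SameFQ Λ (SLZ n) ↔ Near Λ (SLZ n) c)) ∧
      ((∀ (Λ : Type) [Group Λ], InGenus Λ (SLZ n) → Nonempty (Λ ≃* SLZ n)) ↔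
        ∀ (Λ : Type) [Group Λ], Group.FG Λ → RF Λ → (FQle (SLZ n) Λ ∨ FQle Λ (SLZ n)) →
          Near Λ (SLZ n) c → Nonempty (Λ ≃* SLZ n)) ∧
      (∀ H : Subgroup (SLZ n), Group.FG H → Dense H →
        (Induced H ↔ Near H (SLZ n) c)) := by
  refine ⟨fun Γ Λ _ _ hΓ hΛ h Q _ _ hQ hQ' x => many_extra hΛ hΓ h Q hQ hQ' x, ?_⟩
  intro n hn c hc0 hc
  have hgap : ∀ (Λ : Type) [Group Λ], Group.FG Λ → (FQle (SLZ n) Λ ∨ FQle Λ (SLZ n)) →
        (SameFQ Λ (SLZ n) ↔ Near Λ (SLZ n) c) := fun Λ _ hΛ h =>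
    gap hΛ (fg_SLZ n) (growth hn) h hc0 hc
  refine ⟨?_, hgap, ?_, ?_⟩
  · intro C e
    obtain ⟨k, hk⟩ := exists_nat_ge (1 / c)
    obtain ⟨y, hy⟩ := growth hn C (k * e)
    have hy1 : 1 ≤ y := by
      rcases Nat.eq_zero_or_pos y with h | h
      · rw [h, num_zero] at hy
        omega
      · exact h
    refine ⟨y ^ k, lt_of_lt_of_le ?_ (num_monotone (fg_SLZ n) (Nat.le_floor ?_ :
      y ≤ ⌊((y ^ k : ℕ) : ℝ) ^ c⌋₊))⟩
    · rw [← pow_mul]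
      exact hy
    · have h1 : (1 : ℝ) ≤ k * c := by
        rw [div_le_iff₀ hc0] at hk
        exact hk
      have hyR : (1 : ℝ) ≤ y := by exact_mod_cast hy1
      push_cast
      rw [← Real.rpow_natCast, ← Real.rpow_mul (by linarith)]
      calc (y : ℝ) = (y : ℝ) ^ (1 : ℝ) := (Real.rpow_one _).symm
        _ ≤ (y : ℝ) ^ ((k : ℝ) * c) := Real.rpow_le_rpow_of_exponent_le hyR h1
  · constructor
    · intro hr Λ _ hΛ hrf h hnear
      exact hr Λ ⟨hΛ, hrf, (hgap Λ hΛ h).2 hnear⟩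
    · intro hr Λ _ hg
      exact hr Λ hg.fg hg.rf (Or.inl fun Q _ _ => (hg.same Q).2)
        ((hgap Λ hg.fg (Or.inl fun Q _ _ => (hg.same Q).2)).1 hg.same)
  · intro H hfg hH
    rw [induced_iff (fg_SLZ n) hfg hH]
    exact hgap H hfg (Or.inl (dense_le hH))

end Pool.Agent.Results.MP_a2a22c_al.FiniteQuotientGap
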