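import Pool.Agent.Q98.DF.SLn

/-!
# MP_a2a22c_al: profinite rigidity of `SL(n,ℤ)` and the genus of products

If `SL(n,ℤ)`, `n ≥ 3`, is not profinitely rigid, then for every finitely generated residually finite
group `B` and every `k` there are at least `k + 1` finitely generated residually finite groups with
the same finite quotients as `SL(n,ℤ)^k × B`.
-/

set_option autoImplicit false

namespace Pool.Agent.Results.MP_a2a22c_al.GenusOfProducts

open Function Pool.Agent.Q98.DF

/-- profinitely rigid: isomorphic to all groups of its genus -/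
def Rigid (G : Type) [Group G] : Prop :=
  ∀ (L : Type) [Group L], InGenus L G → Nonempty (L ≃* G)

/-- the genus of `G` has at most `k` members: among `k + 1` members two are isomorphic -/
def GenusLe (G : Type) [Group G] (k : ℕ) : Prop :=
  ∀ (L : Fin (k + 1) → Type) [∀ i, Group (L i)], (∀ i, InGenus (L i) G) →
    ∃ i j, i ≠ j ∧ Nonempty (L i ≃* L j)

lemma splitE (G : Type) [Group G] {i k : ℕ} (h : i ≤ k) :
    Nonempty ((Fin k → G) ≃* (Fin i → G) × (Fin (k - i) → G)) := by
  obtain ⟨j, rfl⟩ := Nat.exists_eq_add_of_le h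
  have : i + j - i = j := by omega
  rw [this]
  exact ⟨appE G i j⟩

lemma genus_prod {n : ℕ} {L B : Type} [Group L] [Group B] (hL : InGenus L (SLZ n))
    (hB : Group.FG B) (hB' : RF B) {i k : ℕ} (h : i ≤ k) :
    InGenus ((Fin i → L) × (Fin (k - i) → SLZ n) × B) ((Fin k → SLZ n) × B) := by
  haveI := hL.fg
  haveI := fg_SLZ n
  obtain ⟨e⟩ := splitE (SLZ n) h
  refine ⟨inferInstance, hL.rf.pi.prod ((rf_SLZ n).pi.prod hB'), ?_⟩
  have h1 : SameFQ ((Fin i → L) × (Fin (k - i) → SLZ n) × B)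
      ((Fin i → SLZ n) × (Fin (k - i) → SLZ n) × B) :=
    (hL.same.pi i).prod (SameFQ.refl _)
  exact h1.trans (SameFQ.of_equiv
    ((e.prodCongr (MulEquiv.refl B)).trans MulEquiv.prodAssoc).symm)

lemma not_iso {n : ℕ} (hn : 3 ≤ n) {L B : Type} [Group L] [Group B] (hL : InGenus L (SLZ n))
    (hL' : ¬ Nonempty (L ≃* SLZ n)) (hB : Group.FG B) {i j k : ℕ} (hi : i ≤ k) (hj : j ≤ k)
    (e : Nonempty (((Fin i → L) × (Fin (k - i) → SLZ n) × B) ≃*
      ((Fin j → L) × (Fin (k - j) → SLZ n) × B))) : i = j := by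
  obtain ⟨e⟩ := e
  have hg := good_SLZ hn
  have hperf := perfect_of_same hL.fg hL.same hg.perf
  have hno : ∀ f : L →* SLZ n, ¬ Surjective f := fun f hf =>
    hL' ⟨MulEquiv.ofBijective f ⟨hopf hL.fg hL.rf hL.same f hf, hf⟩⟩
  have h1 := factors_equiv (Γ := SLZ n) e
  rw [count hg (fg_SLZ n) hperf hno hB i (k - i), count hg (fg_SLZ n) hperf hno hB j (k - j)] at h1
  omega

/-- the trivial factor -/
def oneE (G : Type) [Group G] : (Fin 1 → G) × Unit ≃* G where
  toFun p := p.1 0
  invFun g := (fun _ => g, ())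
  left_inv p := Prod.ext (by funext i; rw [Subsingleton.elim i 0]) rfl
  right_inv g := rfl
  map_mul' p q := rfl

/-- `n ≥ 3`. (1) Let `Λ` be a finitely generated residually finite group with the same finite
quotients as `SL(n,ℤ)`, not isomorphic to it. Then for every finitely generated residually finite
group `B` and every `k` the `k + 1` groups `Λ^i × SL(n,ℤ)^(k-i) × B`, `0 ≤ i ≤ k`, are finitely
generated, residually finite, have the same finite quotients as `SL(n,ℤ)^k × B` and are pairwise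
non-isomorphic. (2) Hence `SL(n,ℤ)` is profinitely rigid if and only if for some finitely generated
residually finite group `B` and some `k` the genus of `SL(n,ℤ)^k × B` has at most `k` members. -/
theorem result (n : ℕ) (hn : 3 ≤ n) :
    (∀ (L : Type) [Group L], InGenus L (SLZ n) → ¬ Nonempty (L ≃* SLZ n) →
      ∀ (B : Type) [Group B], Group.FG B → RF B → ∀ k : ℕ,
        (∀ i ≤ k, InGenus ((Fin i → L) × (Fin (k - i) → SLZ n) × B) ((Fin k → SLZ n) × B)) ∧
        (∀ i ≤ k, ∀ j ≤ k, Nonempty (((Fin i → L) × (Fin (k - i) → SLZ n) × B) ≃*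
          ((Fin j → L) × (Fin (k - j) → SLZ n) × B)) → i = j)) ∧
    (Rigid (SLZ n) ↔ ∃ (B : Type) (_ : Group B) (k : ℕ), Group.FG B ∧ RF B ∧
      GenusLe ((Fin k → SLZ n) × B) k) := by
  have h1 : ∀ (L : Type) [Group L], InGenus L (SLZ n) → ¬ Nonempty (L ≃* SLZ n) →
      ∀ (B : Type) [Group B], Group.FG B → RF B → ∀ k : ℕ,
        (∀ i ≤ k, InGenus ((Fin i → L) × (Fin (k - i) → SLZ n) × B) ((Fin k → SLZ n) × B)) ∧
        (∀ i ≤ k, ∀ j ≤ k, Nonempty (((Fin i → L) × (Fin (k - i) → SLZ n) × B) ≃*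
          ((Fin j → L) × (Fin (k - j) → SLZ n) × B)) → i = j) :=
    fun L _ hL hL' B _ hB hB' k => ⟨fun i hi => genus_prod hL hB hB' hi,
      fun i hi j hj e => not_iso hn hL hL' hB hi hj e⟩
  refine ⟨h1, fun hr => ?_, ?_⟩
  · refine ⟨Unit, inferInstance, 1, inferInstance, fun g hg => absurd rfl hg, ?_⟩
    intro L _ hL
    have h2 : ∀ i, Nonempty (L i ≃* SLZ n) := fun i => hr (L i)
      ⟨(hL i).fg, (hL i).rf, (hL i).same.trans (SameFQ.of_equiv (oneE (SLZ n)))⟩
    obtain ⟨e0⟩ := h2 0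
    obtain ⟨e1⟩ := h2 1
    exact ⟨0, 1, by decide, ⟨e0.trans e1.symm⟩⟩
  · rintro ⟨B, _, k, hB, hB', hk⟩ L _ hL
    by_contra hL'
    obtain ⟨h2, h3⟩ := h1 L hL hL' B hB hB' k
    obtain ⟨i, j, hij, e⟩ := hk
      (fun i => (Fin i.val → L) × (Fin (k - i.val) → SLZ n) × B)
      (fun i => h2 i.val (by omega))
    exact hij (Fin.ext (h3 i.val (by omega) j.val (by omega) e))

end Pool.Agent.Results.MP_a2a22c_al.GenusOfProducts
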