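import Pool.Agent.Q315.LR.Irr

/-!
# MP_a2a22c_al: small actions of the groups in the genus of `SL(n,ℤ)`

Let `n ≥ 3` and let `Λ` be a finitely generated group with the same finite quotients as `SL(n,ℤ)`.
Like `SL(n,ℤ)` itself, it has no nontrivial linear action on a module with fewer than `n` generators
over any commutative ring and no nontrivial action on a residually nilpotent group with fewer than `n`
generators.

Proof. Over a finite field the image of `Λ` is a finite quotient of `SL(n,ℤ)`, so we need to know
that `SL(n,ℤ)` has no nontrivial representation `V` of dimension less than `n` over an algebraically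
closed field. The elementary matrices `e_{1j}` commute. The other elementary matrices permute their
common eigenvectors and change the eigenvalues by `χ_j ↦ χ_j χ_k`, so a nontrivial system of
eigenvalues gives `n` of them. Hence the elementary matrices act by unipotent maps. The fixed space
`V₀` of the `e_{1j}` is invariant under `SL(n-1,ℤ)`, and by induction `SL(n-1,ℤ)` acts trivially on
`V₀` and `V / V₀`, unless `V₀ = V`. For modules over finitely generated rings use the powers of the
maximal ideals, the perfectness of `Λ` and Krull's theorem; for residually nilpotent groups the lower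
central series.
-/

set_option autoImplicit false

namespace Pool.Agent.Results.MP_a2a22c_al.SmallActions

open Module Pool.Agent.Q98.DF Pool.Agent.Q315.LR

/-- `A` is generated by `m` elements as an `R`-module -/
def ModGen (R A : Type) [CommRing R] [AddCommGroup A] [Module R A] (m : ℕ) : Prop :=
  ∃ e : Fin m → A, Submodule.span R (Set.range e) = ⊤

/-- `N` is generated by `m` elements as a group -/
def GrpGen (N : Type) [Group N] (m : ℕ) : Prop :=
  ∃ x : Fin m → N, Subgroup.closure (Set.range x) = ⊤

/-- the lower central series of `N` intersects in `1` -/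
def ResNil (N : Type) [Group N] : Prop :=
  ∀ y : N, (∀ k, y ∈ Subgroup.lowerCentralSeries (⊤ : Subgroup N) k) → y = 1

/-- **Small actions of the groups in the genus of `SL(n,ℤ)`.** -/
theorem result (n : ℕ) (hn : 3 ≤ n) (Λ : Type) [Group Λ] (hfg : Group.FG Λ)
    (hΛ : SameFQ Λ (Matrix.SpecialLinearGroup (Fin n) ℤ)) :
    (∀ m < n, ∀ (R A : Type) [CommRing R] [AddCommGroup A] [Module R A], ModGen R A m →
      ∀ ρ : Λ →* End R A, ρ = 1) ∧
    (∀ m < n, ∀ (R : Type) [CommRing R] (φ : Λ →* Matrix.GeneralLinearGroup (Fin m) R), φ = 1) ∧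
    (∀ (K V : Type) [Field K] [AddCommGroup V] [Module K V] [FiniteDimensional K V],
      finrank K V = n → ∀ ρ : Λ →* End K V, ρ ≠ 1 →
        ∀ W : Submodule K V, (∀ g, ∀ w ∈ W, ρ g w ∈ W) → W = ⊥ ∨ W = ⊤) ∧
    (∀ m < n, ∀ (N : Type) [Group N], GrpGen N m → ResNil N → ∀ α : Λ →* MulAut N, α = 1) ∧
    (∀ m < n, ∀ α : Λ →* MulAut (FreeGroup (Fin m)), α = 1) := by
  have key : ∀ m < n, ∀ (N : Type) [Group N], GrpGen N m → ResNil N →
      ∀ α : Λ →* MulAut N, α = 1 := by
    rintro m hm N _ ⟨x, hx⟩ hN α
    exact MonoidHom.ext fun g => grp_trivial hn hfg hΛ hm x hx hN α g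
  refine ⟨?_, ?_, ?_, key, ?_⟩
  · rintro m hm R A _ _ _ ⟨e, he⟩ ρ
    exact MonoidHom.ext fun g => mod_trivial hn hfg hΛ ρ hm e he g
  · intro m hm R _ φ
    exact MonoidHom.ext fun g => gl_trivial hn hfg hΛ hm φ g
  · intro K V _ _ _ _ hd ρ hρ W hW
    by_contra hcon
    push Not at hcon
    exact hρ (irr hn hfg hΛ hd.le ρ W hW hcon.1 hcon.2)
  · intro m hm α
    refine key m hm _ ⟨FreeGroup.of, FreeGroup.closure_range_of _⟩ ?_ α
    intro y hy
    exact Pool.Agent.Helper189.FreeRep.lcs_bot hy

end Pool.Agent.Results.MP_a2a22c_al.SmallActions
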